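import Pool.Agent.H.MP_9038fc_co.Run

set_option autoImplicit false

namespace Pool.Agent.H.MP_9038fc_co

open Pool.Agent.Lib.helper1

def circ (T : Fin 7 → Fin 7 → Prop) : Set (Equiv.Perm (Fin 7)) :=
  {c | c.IsCycle ∧ c.support = Finset.univ ∧ ∀ v, T v (c v)}

theorem ncard_circ (T : Fin 7 → Fin 7 → Prop) (x : ℕ)
    (h : ∀ u v : Fin 7, T u v ↔ (arc u.val v.val).testBit x = true) :
    (circ T).ncard =
      (List.range 7).permutations'.countP (fun l => cyc l && (arcs l).testBit x) := by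
  classical
  rw [← card_filter_perm 7 _ (fun c => c ∈ circ T), ← Set.ncard_coe_finset]
  · congr 1
    ext c; simp
  · intro σ
    rw [Bool.and_eq_true, cyc_iff]
    unfold circ arcs
    simp only [Set.mem_ofPred_eq, Nat.testBit_and, Bool.and_eq_true, h, and_assoc]
    have e : ∀ i : Fin 7, (permList σ).getD i.val 0 = (σ i).val := permList_getD σ
    have e0 := e 0
    have e1 := e 1
    have e2 := e 2
    have e3 := e 3
    have e4 := e 4
    have e5 := e 5
    have e6 := e 6
    simp only [Fin.val_zero, Fin.val_one, Fin.val_two] at e0 e1 e2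
    change (permList σ).getD 3 0 = _ at e3
    change (permList σ).getD 4 0 = _ at e4
    change (permList σ).getD 5 0 = _ at e5
    change (permList σ).getD 6 0 = _ at e6
    rw [e0, e1, e2, e3, e4, e5, e6]
    refine and_congr_right fun _ => and_congr_right fun _ => ⟨fun H => ?_, fun H v => ?_⟩
    · exact ⟨H 0, H 1, H 2, H 3, H 4, H 5, H 6⟩
    · obtain ⟨a0, a1, a2, a3, a4, a5, a6⟩ := H
      fin_cases v
      exacts [a0, a1, a2, a3, a4, a5, a6]

theorem ones_testBit (x : ℕ) (hx : x < 2 ^ 14) : ones.testBit x = true := by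
  unfold ones
  rw [Nat.testBit_two_pow_sub_one]
  simpa using hx

theorem arc_testBit (x : ℕ) (hx : x < 2 ^ 14) (u v : ℕ) (hu : u < 7) (hv : v < 7) :
    (arc u v).testBit x =
      (if (v + 7 - u) % 7 = 1 then true
      else if (v + 7 - u) % 7 = 2 then x.testBit u
      else if (v + 7 - u) % 7 = 3 then x.testBit (7 + u)
      else if (v + 7 - u) % 7 = 4 then !x.testBit (7 + v)
      else if (v + 7 - u) % 7 = 5 then !x.testBit v else false) := by
  unfold arc
  rw [force_eq]
  have hd : (v + 7 - u) % 7 < 7 := Nat.mod_lt _ (by norm_num)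
  generalize (v + 7 - u) % 7 = d at hd ⊢
  have h1 : u < 14 := by omega
  have h2 : v < 14 := by omega
  have h3 : 7 + u < 14 := by omega
  have h4 : 7 + v < 14 := by omega
  have hx' : x < 16384 := hx
  interval_cases d <;>
    simp [Nat.beq, Nat.testBit_xor, pat_testBit, ones_testBit x hx, hx', h1, h2, h3, h4]

theorem not16_std (T : Fin 7 → Fin 7 → Prop) (hi : ∀ v, ¬ T v v)
    (ht : ∀ u v, u ≠ v → (T u v ↔ ¬ T v u)) (hs : ∀ v, T v (finRotate 7 v)) :
    (circ T).ncard ≠ 16 := by
  classical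
  let f : Fin 14 → Bool := fun k =>
    if k.val < 7 then decide (T (Fin.ofNat 7 k.val) (Fin.ofNat 7 (k.val + 2)))
    else decide (T (Fin.ofNat 7 k.val) (Fin.ofNat 7 (k.val + 3)))
  have hx : Nat.ofBits f < 2 ^ 14 := Nat.ofBits_lt_two_pow f
  rw [ncard_circ T (Nat.ofBits f)]
  · exact (count_spec _).1
  · intro u v
    rw [arc_testBit _ hx _ _ u.isLt v.isLt]
    have s0 : T 0 1 := hs 0
    have s1 : T 1 2 := hs 1
    have s2 : T 2 3 := hs 2
    have s3 : T 3 4 := hs 3
    have s4 : T 4 5 := hs 4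
    have s5 : T 5 6 := hs 5
    have s6 : T 6 0 := hs 6
    have hb : ∀ k : Fin 14, (Nat.ofBits f).testBit k.val = f k := fun k => by
      rw [Nat.testBit_ofBits_lt _ _ k.isLt]
    have b0 : (Nat.ofBits f).testBit 0 = decide (T 0 2) := hb 0
    have b1 : (Nat.ofBits f).testBit 1 = decide (T 1 3) := hb 1
    have b2 : (Nat.ofBits f).testBit 2 = decide (T 2 4) := hb 2
    have b3 : (Nat.ofBits f).testBit 3 = decide (T 3 5) := hb 3
    have b4 : (Nat.ofBits f).testBit 4 = decide (T 4 6) := hb 4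
    have b5 : (Nat.ofBits f).testBit 5 = decide (T 5 0) := hb 5
    have b6 : (Nat.ofBits f).testBit 6 = decide (T 6 1) := hb 6
    have b7 : (Nat.ofBits f).testBit 7 = decide (T 0 3) := hb 7
    have b8 : (Nat.ofBits f).testBit 8 = decide (T 1 4) := hb 8
    have b9 : (Nat.ofBits f).testBit 9 = decide (T 2 5) := hb 9
    have b10 : (Nat.ofBits f).testBit 10 = decide (T 3 6) := hb 10
    have b11 : (Nat.ofBits f).testBit 11 = decide (T 4 0) := hb 11
    have b12 : (Nat.ofBits f).testBit 12 = decide (T 5 1) := hb 12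
    have b13 : (Nat.ofBits f).testBit 13 = decide (T 6 2) := hb 13
    have hn : ∀ a b, T a b → ¬ T b a := fun a b h => by
      by_cases e : a = b
      · subst e; exact hi a
      · exact (ht a b e).mp h
    generalize Nat.ofBits f = x at *
    fin_cases u <;> fin_cases v <;>
      simp only [Fin.zero_eta, Fin.mk_one, Fin.reduceFinMk, Fin.isValue] <;>
      norm_num [b0, b1, b2, b3, b4, b5, b6, b7, b8, b9, b10, b11, b12, b13] <;>
      first
        | exact hi _
        | assumption
        | exact hn _ _ (by assumption)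
        | exact ht _ _ (by decide)

theorem ncard_conj (T : Fin 7 → Fin 7 → Prop) (g : Equiv.Perm (Fin 7)) :
    (circ (fun u v => T (g u) (g v))).ncard = (circ T).ncard := by
  apply Set.ncard_congr (fun c _ => g * c * g⁻¹)
  · rintro c ⟨h1, h2, h3⟩
    refine ⟨h1.conj, ?_, fun v => ?_⟩
    · rw [Equiv.Perm.support_conj, h2]; simp
    · simpa using h3 (g⁻¹ v)
  · intro a b _ _ h
    simpa using h
  · rintro c ⟨h1, h2, h3⟩
    refine ⟨g⁻¹ * c * g⁻¹⁻¹, ⟨h1.conj, ?_, fun v => ?_⟩, by group⟩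
    · rw [Equiv.Perm.support_conj, h2]; simp
    · simpa using h3 (g v)

theorem not16 (T : Fin 7 → Fin 7 → Prop) (hi : ∀ v, ¬ T v v)
    (ht : ∀ u v, u ≠ v → (T u v ↔ ¬ T v u)) : (circ T).ncard ≠ 16 := by
  intro h
  obtain ⟨c, h1, h2, h3⟩ : (circ T).Nonempty := Set.nonempty_of_ncard_ne_zero (by omega)
  have hc : IsConj (finRotate 7) c :=
    (isCycle_finRotate (n := 5)).isConj h1 (by rw [h2, support_finRotate (n := 5)])
  obtain ⟨g, rfl⟩ := isConj_iff.mp hc
  rw [← ncard_conj T g] at h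
  refine not16_std (fun u v => T (g u) (g v)) (fun v => hi _)
    (fun u v e => ht _ _ (fun e' => e (g.injective e'))) (fun v => ?_) h
  simpa using h3 (g v)

theorem exists_ge : ∃ T : Fin 7 → Fin 7 → Prop, (∀ v, ¬ T v v) ∧
    (∀ u v, u ≠ v → (T u v ↔ ¬ T v u)) ∧ 16 ≤ (circ T).ncard := by
  refine ⟨fun u v => (arc u.val v.val).testBit 0 = true, ?_, ?_, ?_⟩
  · intro v
    beta_reduce
    rw [arc_testBit 0 (by norm_num) _ _ v.isLt v.isLt]
    revert v; decide
  · intro u v
    beta_reduce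
    rw [arc_testBit 0 (by norm_num) _ _ u.isLt v.isLt, arc_testBit 0 (by norm_num) _ _ v.isLt u.isLt]
    revert u v; decide
  · rw [ncard_circ _ 0 (fun _ _ => Iff.rfl)]
    exact (count_spec 0).2 rfl

end Pool.Agent.H.MP_9038fc_co
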