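import Mathlib
import Pool.Agent.Lib.helper1.PermCount

set_option autoImplicit false

namespace Pool.Agent.H.MP_9038fc_co

open Pool.Agent.Lib.helper1

def force {α : Type} (x : ℕ) (k : ℕ → α) : α := Nat.casesOn x (k 0) (fun n => k (n + 1))

theorem force_eq {α : Type} (x : ℕ) (k : ℕ → α) : force x k = k x := by
  cases x <;> rfl

/-- bit `x` of `pat k n` is bit `k` of `x`, for `x < 2 ^ n` -/
def pat (k : ℕ) (n : ℕ) : ℕ :=
  Nat.rec 0 (fun m r => bif Nat.beq k m then (2 ^ (2 ^ m) - 1) <<< (2 ^ m)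
    else force r (fun r => r ||| (r <<< (2 ^ m)))) n

theorem pat_succ (k m : ℕ) : pat k (m + 1) = if k = m then (2 ^ (2 ^ m) - 1) <<< (2 ^ m)
    else pat k m ||| (pat k m <<< (2 ^ m)) := by
  unfold pat
  by_cases h : k = m
  · subst h; simp
  · have : Nat.beq k m = false := by
      cases hb : Nat.beq k m
      · rfl
      · exact absurd (Nat.eq_of_beq_eq_true hb) h
    simp [this, h, force_eq]

theorem pat_testBit (k n x : ℕ) : (pat k n).testBit x = (decide (x < 2 ^ n) && decide (k < n) && x.testBit k) := by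
  induction n generalizing x with
  | zero => simp [pat]
  | succ m ih =>
    rw [pat_succ]
    have hp : 2 ^ (m + 1) = 2 ^ m + 2 ^ m := by ring
    split_ifs with h
    · subst h
      rw [Nat.testBit_shiftLeft, Nat.testBit_two_pow_sub_one]
      by_cases h1 : x < 2 ^ k
      · have : ¬ (x ≥ 2 ^ k) := by omega
        simp [this, Nat.testBit_lt_two_pow h1]
      · by_cases h2 : x < 2 ^ (k + 1)
        · have h3 : x.testBit k = true := Nat.testBit_of_two_pow_le_and_two_pow_add_one_gt (by omega) h2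
          have h4 : x - 2 ^ k < 2 ^ k := by omega
          have h5 : x ≥ 2 ^ k := by omega
          simp [h2, h3, h4, h5]
        · have h4 : ¬ (x - 2 ^ k < 2 ^ k) := by omega
          simp [h2, h4]
    · rw [Nat.testBit_or, Nat.testBit_shiftLeft, ih, ih]
      by_cases hk : k < m
      · have hk' : k < m + 1 := by omega
        by_cases h1 : x < 2 ^ m
        · have : ¬ (x ≥ 2 ^ m) := by omega
          have h2 : x < 2 ^ (m + 1) := by omega
          simp [this, h1, h2, hk, hk']
        · by_cases h2 : x < 2 ^ (m + 1)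
          · have h4 : x - 2 ^ m < 2 ^ m := by omega
            have h5 : x ≥ 2 ^ m := by omega
            have h6 : (x - 2 ^ m).testBit k = x.testBit k := by
              have : x = 2 ^ m + (x - 2 ^ m) := by omega
              conv_rhs => rw [this]
              rw [Nat.testBit_two_pow_add_gt hk]
            simp [h1, h2, h4, h5, h6, hk, hk']
          · have h4 : ¬ (x - 2 ^ m < 2 ^ m) := by omega
            simp [h1, h2, h4]
      · have hk' : ¬ (k < m + 1) := by omega
        simp [hk, hk']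

def ones : ℕ := 2 ^ (2 ^ 14) - 1

def arc (u v : ℕ) : ℕ :=
  force ((v + 7 - u) % 7) fun d =>
  bif Nat.beq d 1 then ones
  else bif Nat.beq d 2 then pat u 14
  else bif Nat.beq d 3 then pat (7 + u) 14
  else bif Nat.beq d 4 then ones ^^^ pat (7 + v) 14
  else bif Nat.beq d 5 then ones ^^^ pat v 14 else 0

def it (l : List ℕ) (k : ℕ) : ℕ := Nat.rec 0 (fun _ r => l.getD r 0) k

def cyc (l : List ℕ) : Bool :=
  (List.range 7).all (fun w => (List.range 7).any (fun k => Nat.beq (it l k) w))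

def arcs (l : List ℕ) : ℕ :=
  arc 0 (l.getD 0 0) &&& arc 1 (l.getD 1 0) &&& arc 2 (l.getD 2 0) &&& arc 3 (l.getD 3 0) &&&
    arc 4 (l.getD 4 0) &&& arc 5 (l.getD 5 0) &&& arc 6 (l.getD 6 0)

def fin (c0 c1 c2 c3 c4 : ℕ) : Bool :=
  Nat.beq (c4 &&& (c0 ||| c1 ||| c2 ||| c3)) c4 && c4.testBit 0

noncomputable def loop (L : List (List ℕ)) : ℕ → ℕ → ℕ → ℕ → ℕ → Bool :=
  List.rec fin (fun l _ r c0 c1 c2 c3 c4 =>
    bif cyc l then
      force (arcs l) fun b =>
      force (c0 &&& b) fun k0 => force (c1 &&& k0) fun k1 => force (c2 &&& k1) fun k2 =>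
      force (c0 ^^^ b) fun d0 => force (c1 ^^^ k0) fun d1 => force (c2 ^^^ k1) fun d2 =>
      force (c3 ^^^ k2) fun d3 => force (c4 ^^^ (c3 &&& k2)) fun d4 => r d0 d1 d2 d3 d4
    else r c0 c1 c2 c3 c4) L

theorem run : loop (List.range 7).permutations' 0 0 0 0 0 = true := by
  decide +kernel

def bv (b0 b1 b2 b3 b4 : Bool) : ℕ :=
  b0.toNat + 2 * b1.toNat + 4 * b2.toNat + 8 * b3.toNat + 16 * b4.toNat

theorem bv_step : ∀ b b0 b1 b2 b3 b4 : Bool,
    bv (b0 ^^ b) (b1 ^^ (b0 && b)) (b2 ^^ (b1 && (b0 && b))) (b3 ^^ (b2 && (b1 && (b0 && b))))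
      (b4 ^^ (b3 && (b2 && (b1 && (b0 && b))))) = (bv b0 b1 b2 b3 b4 + b.toNat) % 32 := by
  decide

theorem bv_fin : ∀ b0 b1 b2 b3 b4 : Bool, (b4 && (b0 || b1 || b2 || b3)) = b4 →
    bv b0 b1 b2 b3 b4 % 32 ≠ 16 := by
  decide

theorem bv_fin2 : ∀ b0 b1 b2 b3 : Bool, 16 ≤ bv b0 b1 b2 b3 true % 32 := by
  decide

def val (c0 c1 c2 c3 c4 x : ℕ) : ℕ :=
  bv (c0.testBit x) (c1.testBit x) (c2.testBit x) (c3.testBit x) (c4.testBit x)

theorem loop_spec (L : List (List ℕ)) (x : ℕ) : ∀ c0 c1 c2 c3 c4 : ℕ, loop L c0 c1 c2 c3 c4 = true →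
    (val c0 c1 c2 c3 c4 x + L.countP (fun l => cyc l && (arcs l).testBit x)) % 32 ≠ 16 ∧
    (x = 0 → 16 ≤ (val c0 c1 c2 c3 c4 x + L.countP (fun l => cyc l && (arcs l).testBit x)) % 32) := by
  induction L with
  | nil =>
    intro c0 c1 c2 c3 c4 h
    have h' : fin c0 c1 c2 c3 c4 = true := h
    unfold fin at h'
    rw [Bool.and_eq_true] at h'
    obtain ⟨h1, h2⟩ := h'
    have h3 := Nat.eq_of_beq_eq_true h1
    have h4 := congrArg (fun z => z.testBit x) h3
    simp only [Nat.testBit_and, Nat.testBit_or] at h4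
    simp only [List.countP_nil, Nat.add_zero]
    refine ⟨bv_fin _ _ _ _ _ h4, ?_⟩
    rintro rfl
    unfold val
    rw [h2]
    exact bv_fin2 _ _ _ _
  | cons l L ih =>
    intro c0 c1 c2 c3 c4 h
    have hu : loop (l :: L) c0 c1 c2 c3 c4 = (bif cyc l then
      force (arcs l) fun b =>
      force (c0 &&& b) fun k0 => force (c1 &&& k0) fun k1 => force (c2 &&& k1) fun k2 =>
      force (c0 ^^^ b) fun d0 => force (c1 ^^^ k0) fun d1 => force (c2 ^^^ k1) fun d2 =>
      force (c3 ^^^ k2) fun d3 => force (c4 ^^^ (c3 &&& k2)) fun d4 => loop L d0 d1 d2 d3 d4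
      else loop L c0 c1 c2 c3 c4) := rfl
    rw [hu] at h
    rw [List.countP_cons]
    cases hc : cyc l
    · rw [hc] at h
      simpa using ih _ _ _ _ _ h
    · rw [hc] at h
      simp only [cond_true, force_eq] at h
      have := ih _ _ _ _ _ h
      unfold val at this ⊢
      simp only [Nat.testBit_xor, Nat.testBit_and, bv_step] at this
      have e : ∀ b : Bool, (if (true && b) = true then 1 else 0) = b.toNat := by decide
      rw [e]
      have e2 : ∀ a b c : ℕ, ((a + b) % 32 + c) % 32 = (a + (c + b)) % 32 := by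
        intro a b c; omega
      rw [e2] at this
      exact this

theorem count_spec (x : ℕ) :
    (List.range 7).permutations'.countP (fun l => cyc l && (arcs l).testBit x) ≠ 16 ∧
    (x = 0 → 16 ≤ (List.range 7).permutations'.countP (fun l => cyc l && (arcs l).testBit x)) := by
  have h := loop_spec _ x _ _ _ _ _ run
  have hv : val 0 0 0 0 0 x = 0 := by simp [val, bv]
  rw [hv, Nat.zero_add] at h
  generalize (List.range 7).permutations'.countP (fun l => cyc l && (arcs l).testBit x) = N at h ⊢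
  refine ⟨fun e => h.1 (by rw [e]), fun e => ?_⟩
  have := h.2 e
  omega

theorem it_eq (σ : Equiv.Perm (Fin 7)) (k : ℕ) : it (permList σ) k = ((σ ^ k) 0).val := by
  induction k with
  | zero => rfl
  | succ k ih =>
    have : it (permList σ) (k + 1) = (permList σ).getD (it (permList σ) k) 0 := rfl
    rw [this, ih, permList_getD, pow_succ', Equiv.Perm.mul_apply]

theorem cyc_iff (σ : Equiv.Perm (Fin 7)) :
    cyc (permList σ) = true ↔ σ.IsCycle ∧ σ.support = Finset.univ := by
  unfold cyc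
  simp only [List.all_eq_true, List.any_eq_true, List.mem_range, it_eq, Nat.beq_eq]
  constructor
  · intro h
    have h' : ∀ w : Fin 7, ∃ k : ℕ, (σ ^ k) 0 = w := fun w => by
      obtain ⟨k, -, hk⟩ := h w.val w.isLt
      exact ⟨k, Fin.ext hk⟩
    have h0 : σ 0 ≠ 0 := by
      intro e
      obtain ⟨k, hk⟩ := h' 1
      rw [Equiv.Perm.pow_apply_eq_self_of_apply_eq_self e] at hk
      exact absurd hk (by decide)
    refine ⟨⟨0, h0, fun y _ => ?_⟩, ?_⟩
    · obtain ⟨k, hk⟩ := h' y
      exact ⟨(k : ℤ), by simpa using hk⟩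
    · rw [Finset.eq_univ_iff_forall]
      intro w
      obtain ⟨k, rfl⟩ := h' w
      rw [Equiv.Perm.pow_apply_mem_support, Equiv.Perm.mem_support]
      exact h0
  · rintro ⟨hc, hs⟩ w hw
    have hm : ∀ y : Fin 7, σ y ≠ y := fun y => Equiv.Perm.mem_support.mp (hs ▸ Finset.mem_univ y)
    have ho : orderOf σ = 7 := by rw [hc.orderOf, hs]; simp
    obtain ⟨k, hk⟩ := hc.exists_pow_eq (hm 0) (hm ⟨w, hw⟩)
    refine ⟨k % 7, Nat.mod_lt _ (by norm_num), ?_⟩
    have := pow_mod_orderOf σ k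
    rw [ho] at this
    rw [this, hk]

end Pool.Agent.H.MP_9038fc_co
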